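import Mathlib
import Pool.Agent.X21.Ce.B3

/-!
# Central zeros of small order for extensions with alternating and other layers

`Pool.Agent.H541R3.ART.Irr G` is the set of irreducible complex characters of the finite group `G`.

`Pool.Agent.H541R3.ART.ArtinData G s₀` is a family of functions with the formal properties of the
Artin L-functions of a Galois extension `E/K` with group `G` near a point `s₀ ≠ 1`: functions `L χ`
for the irreducible characters `χ` of `G`, meromorphic and not identically zero near `s₀` (Brauer),
and `Lin H ψ` for the linear characters `ψ` of the subgroups `H`, without pole at `s₀` (Artin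
reciprocity and Hecke), such that `Lin H ψ` is the product of the `L χ ^ ⟨χ|_H, ψ⟩` (induction). In
particular `Lin ⊥ 1` stands for the Dedekind zeta function of `E`, and `Lin U 1` for the one of the
fixed field of `U`.

`Pool.Agent.X21.Ce.nu χ` is the Frobenius-Schur indicator `|G|⁻¹ ∑ χ (g²)`.

`Pool.Agent.X21.Ce.CentralData G` is `ArtinData G (1 / 2)` together with the functional equation:
for every orthogonal (`nu φ = 1`) irreducible character `φ` of a subgroup `H` the function
`P(s) = ∏ L χ (s) ^ ⟨χ|_H, φ⟩` (the L-function of `φ` over the fixed field of `H`) satisfies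
`γ(s) P(s) = γ(1 - s) P(1 - s)` near `1 / 2` for some `γ` which is analytic and not zero at `1 / 2`
(functional equation of Artin and Hecke; the root number is `1` by the theorem of Fröhlich and
Queyranne).

`Pool.Agent.X21.Ce.TotOrth G` says that all irreducible characters of `G` are orthogonal.

`Pool.Agent.X21.Sy.AltOr r S` says that the finite group `S` is isomorphic to `A_n` for some
`n ≥ 14` with `r < n - 1`, and with `r < n - 2` if `n` is prime (`AltFac r S`), or is in the list
`Pool.Agent.TH820.FacO r S` of the starting library (groups of Lie type of large rank, and all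
groups on which every Heilbronn function of degree at most `r` is constant).

`Pool.Agent.X21.Ce.CFac r S` says that `S` is isomorphic to `A_n` for some `n ≥ 16` with
`r < 2 (n - 3)`, and with `r < 2 (n - 4)` if `n - 2` is prime (`CAlt r S`), or `AltOr r S`, or
`TotOrth S` and `AltOr (r / 2) S`.

`Pool.Agent.X21.Ce.BuiltZ r P N` says that the normal subgroup `N` of `G` is obtained from the
trivial subgroup by finitely many steps `M ≤ N` of two kinds: `N / M` is normal in `G / M` and
generated by finitely many pairwise commuting subgroups, each a homomorphic image of a finite group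
`S` with `P S` (`Pool.Agent.TH820.LayC`); or `N / M` is abelian and normal in `G / M`, and every
nontrivial linear character of `N / M` has more than `r` conjugates under `G / M`, or has values
`1, -1` and more than `r / 2` conjugates (`Pool.Agent.X21.Ce.COrb`).

`Pool.Agent.X21.Qd.IsRel A U η F` says that `F` is near the point the product of the
`L χ ^ ⟨χ|_U, η⟩`, that is, the L-function of `η` over the fixed field of `U`.
-/

set_option autoImplicit false

open Pool.Agent.H541R3.ART Pool.Agent.X21.Sy Pool.Agent.X21.Qd Pool.Agent.X21.Ce Equiv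

/-- Let `G` be the group of a Galois extension `E/K` and `r` the order of `ζ_E` at `1 / 2`.
(1) Let `N` be a normal subgroup of `G` which is built from the factors `CFac r`. Then `r` is even,
`L χ` is holomorphic and not zero at `1 / 2` for all irreducible `χ` which are not trivial on `N`,
and no `L χ` has a pole at `1 / 2` if the irreducible characters of `G` which are trivial on `N` are
monomial. For all subgroups `U` of `G` the L-functions over the fixed field of `U` of the
irreducible characters of `U` which are not trivial on `U ∩ N` are holomorphic and not zero at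
`1 / 2`, and the zeta functions of the fixed fields of `U` and of `U N` have the same order at
`1 / 2`.
(2) Let `G = A_n`, `n ≥ 16`, `r < 2 (n - 3)`, and `r < 2 (n - 4)` if `n - 2` is prime. Then `r` is
even, all `L χ` with nontrivial irreducible `χ` are holomorphic and not zero at `1 / 2`, and the
one of the trivial character has order `r`.
(3) By the formal properties alone this is false for `r = 2 (n - 1)` for all `n ≥ 4`, and for
`r = 2 (n - 2)` for all primes `n ≥ 5`. -/
theorem Pool.Agent.Results.MP_3b6604_nt.CentralAlternating.result :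
    (∀ (G : Type) [Group G] [Finite G] (A : CentralData G) (r : ℕ),
      meromorphicOrderAt (A.Lin ⊥ 1) (1 / 2) = (r : WithTop ℤ) →
      ∀ N : Subgroup G, BuiltZ r (fun S [Group S] => CFac r S) N →
      (Even r ∧ (∀ χ ∈ Irr G, (∃ n ∈ N, χ n ≠ χ 1) → meromorphicOrderAt (A.L χ) (1 / 2) = 0) ∧
      ((∀ χ ∈ Irr G, (∀ n ∈ N, χ n = χ 1) → IsMonomialChar χ) →
        ∀ χ ∈ Irr G, 0 ≤ meromorphicOrderAt (A.L χ) (1 / 2))) ∧
      ∀ U : Subgroup G,
        (∀ η ∈ Irr U, (∃ u : U, (u : G) ∈ N ∧ η u ≠ η 1) → ∀ F : ℂ → ℂ,
          IsRel A.toArtinData U η F → meromorphicOrderAt F (1 / 2) = 0) ∧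
        meromorphicOrderAt (A.Lin U 1) (1 / 2) = meromorphicOrderAt (A.Lin (U ⊔ N) 1) (1 / 2)) ∧
    (∀ n : ℕ, 16 ≤ n → ∀ (A : CentralData (alternatingGroup (Fin n))) (r : ℕ),
      meromorphicOrderAt (A.Lin ⊥ 1) (1 / 2) = (r : WithTop ℤ) →
      r < 2 * (n - 3) → ((n - 2).Prime → r < 2 * (n - 4)) →
      Even r ∧ ∀ χ ∈ Irr (alternatingGroup (Fin n)),
        ((∃ g, χ g ≠ χ 1) → meromorphicOrderAt (A.L χ) (1 / 2) = 0) ∧
        ((∀ g, χ g = χ 1) → meromorphicOrderAt (A.L χ) (1 / 2) = (r : WithTop ℤ))) ∧
    (∀ n : ℕ, 4 ≤ n → ∃ C : CentralData (alternatingGroup (Fin n)),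
      meromorphicOrderAt (C.Lin ⊥ 1) (1 / 2) = ((2 * (n - 1) : ℕ) : WithTop ℤ) ∧
      ∃ χ ∈ Irr (alternatingGroup (Fin n)), (∃ g, χ g ≠ χ 1) ∧
        meromorphicOrderAt (C.L χ) (1 / 2) ≠ 0) ∧
    (∀ p : ℕ, p.Prime → 5 ≤ p → ∃ C : CentralData (alternatingGroup (Fin p)),
      meromorphicOrderAt (C.Lin ⊥ 1) (1 / 2) = ((2 * (p - 2) : ℕ) : WithTop ℤ) ∧
      ∃ χ ∈ Irr (alternatingGroup (Fin p)), (∃ g, χ g ≠ χ 1) ∧
        meromorphicOrderAt (C.L χ) (1 / 2) ≠ 0) := by
  refine ⟨fun G _ _ A r hr N hN => ⟨central_layers A hr N hN,
    fun U => central_layers_sub A hr N hN U⟩,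
    fun n hn A r hr h1 h2 => central_alt hn A hr h1 h2, ?_, ?_⟩
  · intro n hn
    obtain ⟨C, hC, h⟩ := alt_example (α := Fin n) (by rw [Fintype.card_fin]; exact hn)
    rw [Fintype.card_fin] at hC
    exact ⟨C, hC, h⟩
  · intro p hp h5
    have : Fact p.Prime := ⟨hp⟩
    exact alt_example_prime (α := Fin p) (Fintype.card_fin p) h5
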