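import Mathlib
import Pool.Agent.X21.Ce.A11

/-!
# Solvable groups: poles of Artin L-functions at central zeros of small order

`Pool.Agent.H541R3.ART.Irr G` is the set of irreducible complex characters of the finite group `G`.

`Pool.Agent.H541R3.ART.ArtinData G s₀` is a family of functions with the formal properties of the
Artin L-functions of a Galois extension `E/K` with group `G` near a point `s₀ ≠ 1`: functions `L χ`
for the irreducible characters `χ` of `G`, meromorphic and not identically zero near `s₀` (Brauer),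
and `Lin H ψ` for the linear characters `ψ` of the subgroups `H`, without pole at `s₀` (Artin
reciprocity and Hecke), such that `Lin H ψ` is the product of the `L χ ^ ⟨χ|_H, ψ⟩` (induction). In
particular `Lin ⊥ 1` stands for the Dedekind zeta function of `E`.

`Pool.Agent.X21.Ce.nu χ` is the Frobenius-Schur indicator `|G|⁻¹ ∑ χ (g²)`.

`Pool.Agent.X21.Ce.CentralData G` is `ArtinData G (1 / 2)` together with the functional equation:
for every orthogonal (`nu φ = 1`) irreducible character `φ` of a subgroup `H` the function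
`P(s) = ∏ L χ (s) ^ ⟨χ|_H, φ⟩` (the L-function of `φ` over the fixed field of `H`) satisfies
`γ(s) P(s) = γ(1 - s) P(1 - s)` near `1 / 2` for some `γ` which is analytic and not zero at `1 / 2`
(functional equation of Artin and Hecke; the root number is `1` by the theorem of Fröhlich and
Queyranne).

`Pool.Agent.X21.Ce.RealData G` is `CentralData G` together with the functional equations of all
`L χ`: near `1 / 2`, `L χ (s) = γ(s) L χ̄ (1 - s)` for some `γ` which is analytic and not zero at
`1 / 2`.

`Pool.Agent.X21.Ce.TotOrth G` says that all irreducible characters of `G` are orthogonal.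

`Pool.Agent.W446.AS.TwoDim A` (starting library) are functions with the formal properties of the
Artin L-functions of the irreducible characters of degree two of the subgroups of `G`; for solvable
`G` these have no pole by the theorem of Langlands and Tunnell.

`Pool.Agent.W446.AS.Frame X F D` (starting library): the centre `Z` of `X` is cyclic and contains
all abelian normal subgroups of `X`, and `F` is a normal subgroup of `X` containing `Z` such that
`F / Z` is abelian of order `D ^ 2 > 1` and the centraliser of `F` in `X` is `Z`.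
-/

set_option autoImplicit false

open Pool.Agent.H541R3.ART Pool.Agent.X21.Ce Pool.Agent.W446.AS

/-- Let `G` be the group of a Galois extension `E/K` and `r` the order of `ζ_E` at `1 / 2`.
(1) `r` is even for every finite `G`.
(2) Let `G` be solvable. If some `L χ` has a pole at `1 / 2`, then some quotient `X` of a subgroup
of `G` has a frame `F` of degree `D` such that `4 D ≤ r`, or `2 D ≤ r` and `X / F` is cyclic, or
`2 D ≤ r` and the centre of `X` has order two, or `D ≤ r`, `X / F` is cyclic and the centre of `X`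
has order two; and `D ≠ 2` if the L-functions of degree two have no pole at `1 / 2`.
(3) No `L χ` has a pole at `1 / 2` for solvable `G` in each of the following cases: `r ≤ 4 P - 3`
and all prime divisors of `|G|` are at least `P ≥ 3`; `r ≤ 25` and `|G|` is prime to `6`; `r ≤ 21`
and `|G|` is odd and divisible neither by `375` nor by `1215`; `r ≤ 13`, the L-functions of degree
two have no pole at `1 / 2`, and `|G|` is divisible by none of `32`, `108`, `375`.
(4) If `G` is solvable and all irreducible characters of `G` are orthogonal, `r ≤ 13`, the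
L-functions of degree two have no pole at `1 / 2`, and `|G|` is divisible by none of `108`, `160`,
`375`, then all `L χ` are holomorphic at `1 / 2` with even order. -/
theorem Pool.Agent.Results.MP_3b6604_nt.CentralSolvable.result :
    (∀ (G : Type) [Group G] [Finite G] (A : CentralData G) (r : ℕ),
      meromorphicOrderAt (A.Lin ⊥ 1) (1 / 2) = (r : WithTop ℤ) → Even r) ∧
    (∀ (G : Type) [Group G] [Finite G] [Group.IsSolvable G] (A : RealData G) (r : ℕ),
      meromorphicOrderAt (A.Lin ⊥ 1) (1 / 2) = (r : WithTop ℤ) →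
      (∃ χ ∈ Irr G, meromorphicOrderAt (A.L χ) (1 / 2) < 0) →
      ∃ (H : Subgroup G) (X : Type) (_ : Group X) (f : H →* X) (F : Subgroup X) (D : ℕ),
        Function.Surjective f ∧ Frame X F D ∧ (Nonempty (TwoDim A.toArtinData) → D ≠ 2) ∧
        ((4 * D ≤ r ∨ (2 * D ≤ r ∧ ∃ g : X, F ⊔ Subgroup.zpowers g = ⊤)) ∨
          (Nat.card (Subgroup.center X) = 2 ∧
            (2 * D ≤ r ∨ (D ≤ r ∧ ∃ g : X, F ⊔ Subgroup.zpowers g = ⊤))))) ∧
    (∀ (G : Type) [Group G] [Finite G] [Group.IsSolvable G] (A : RealData G) (r : ℕ),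
      meromorphicOrderAt (A.Lin ⊥ 1) (1 / 2) = (r : WithTop ℤ) →
      ((∃ P : ℕ, 3 ≤ P ∧ r ≤ 4 * P - 3 ∧ ∀ q : ℕ, q.Prime → q ∣ Nat.card G → P ≤ q) ∨
        (r ≤ 25 ∧ (Nat.card G).Coprime 6) ∨
        (r ≤ 21 ∧ Odd (Nat.card G) ∧ ¬ 375 ∣ Nat.card G ∧ ¬ 1215 ∣ Nat.card G) ∨
        (r ≤ 13 ∧ Nonempty (TwoDim A.toArtinData) ∧ ¬ 32 ∣ Nat.card G ∧ ¬ 108 ∣ Nat.card G ∧
          ¬ 375 ∣ Nat.card G)) →
      ∀ χ ∈ Irr G, 0 ≤ meromorphicOrderAt (A.L χ) (1 / 2)) ∧
    (∀ (G : Type) [Group G] [Finite G] [Group.IsSolvable G] (A : CentralData G) (r : ℕ),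
      TotOrth G → meromorphicOrderAt (A.Lin ⊥ 1) (1 / 2) = (r : WithTop ℤ) →
      r ≤ 13 → Nonempty (TwoDim A.toArtinData) → ¬ 108 ∣ Nat.card G → ¬ 160 ∣ Nat.card G →
      ¬ 375 ∣ Nat.card G →
      ∀ χ ∈ Irr G, ∃ k : ℕ,
        meromorphicOrderAt (A.L χ) (1 / 2) = ((2 * k : ℕ) : WithTop ℤ)) := by
  refine ⟨fun G _ _ A r hr => even_order A hr, ?_, ?_, ?_⟩
  · rintro G _ _ _ A r hr ⟨χ, hχ, hneg⟩
    by_contra hcon
    have hfree : CFree (Nonempty (TwoDim A.toArtinData)) r G := by
      rintro H X _ f hf ⟨F, D, hF, h1, h2⟩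
      exact hcon ⟨H, X, _, f, F, D, hf, hF, h1, h2⟩
    exact (not_lt.mpr (central_solvable _ A id hr hfree χ hχ)) hneg
  · intro G _ _ _ A r hr h
    rcases h with ⟨P, hP, hrP, hq⟩ | ⟨h12, h6⟩ | ⟨h10, hodd, h375, h1215⟩ |
      ⟨h6, hT, h32, h108, h375⟩
    · have hodd : Odd (Nat.card G) := by
        rw [← Nat.not_even_iff_odd, even_iff_two_dvd]
        intro h2
        have := hq 2 Nat.prime_two h2
        omega
      exact central_solvable False A (fun h => h.elim) hr
        (cfree_odd hodd (free_least _ hP (by omega) hq))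
    · have hodd : Odd (Nat.card G) := by
        rw [← Nat.not_even_iff_odd, even_iff_two_dvd]
        intro h2
        have h3 := Nat.dvd_gcd h2 (by norm_num : 2 ∣ 6)
        rw [h6.gcd_eq_one] at h3
        omega
      exact central_solvable False A (fun h => h.elim) hr
        (cfree_odd hodd (free_twelve _ (by omega) h6))
    · exact central_solvable False A (fun h => h.elim) hr
        (cfree_odd hodd (free_ten _ (by omega) hodd h375 h1215))
    · refine central_solvable True A (fun _ => hT) hr ?_
      rintro H X _ f hf ⟨F, D, hF, h1, h2⟩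
      refine cfree_thirteen h32 h108 h375 H X f hf ⟨F, D, hF, h1, ?_⟩
      rcases h2 with (h2 | ⟨h2, h3⟩) | ⟨h0, h2 | ⟨h2, h3⟩⟩
      · exact Or.inl (Or.inl (by omega))
      · exact Or.inl (Or.inr ⟨by omega, h3⟩)
      · exact Or.inr ⟨h0, Or.inl (by omega)⟩
      · exact Or.inr ⟨h0, Or.inr ⟨by omega, h3⟩⟩
  · intro G _ _ _ A r hG hr h13 hT h108 h160 h375
    exact central_solvable_orth True hG A (fun _ => hT) hr
      ((free_six h108 h160 h375).mono (by omega))
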