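import Mathlib
import Pool.Agent.X21.Ce.A7

/-!
# Zeros of Artin L-functions at the central point: a doubling principle

`Pool.Agent.H541R3.ART.Irr G` is the set of irreducible complex characters of the finite group `G`.

`Pool.Agent.H541R3.ART.ArtinData G s₀` is a family of functions with the formal properties of the
Artin L-functions of a Galois extension `E/K` with group `G` near a point `s₀ ≠ 1`: functions `L χ`
for the irreducible characters `χ` of `G`, meromorphic and not identically zero near `s₀` (Brauer),
and `Lin H ψ` for the linear characters `ψ` of the subgroups `H`, without pole at `s₀` (Artin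
reciprocity and Hecke), such that `Lin H ψ` is the product of the `L χ ^ ⟨χ|_H, ψ⟩` (induction). In
particular `Lin ⊥ 1` stands for the Dedekind zeta function of `E`.

`Pool.Agent.X21.Ce.nu χ` is the Frobenius-Schur indicator `|G|⁻¹ ∑ χ (g²)`.

`Pool.Agent.X21.Ce.CentralData G` is `ArtinData G (1 / 2)` together with the functional equation:
for every orthogonal (`nu φ = 1`) irreducible character `φ` of a subgroup `H` the function
`P(s) = ∏ L χ (s) ^ ⟨χ|_H, φ⟩` (the L-function of `φ` over the fixed field of `H`) satisfies
`γ(s) P(s) = γ(1 - s) P(1 - s)` near `1 / 2` for some `γ` which is analytic and not zero at `1 / 2`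
(functional equation of Artin and Hecke; the root number is `1` by the theorem of Fröhlich and
Queyranne).

`Pool.Agent.X21.Ce.TotOrth G` says that all irreducible characters of `G` are orthogonal.

`Pool.Agent.X21.Sy.AltOr r S` says that the finite group `S` is isomorphic to `A_n` for some
`n ≥ 14` with `r < n - 1`, and with `r < n - 2` if `n` is prime (`AltFac r S`), or is in the list
`Pool.Agent.TH820.FacO r S` of the starting library (groups of Lie type of large rank, and all
groups on which every Heilbronn function of degree at most `r` is constant).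

`Pool.Agent.TH820.BuiltC r P N` (starting library) says that the normal subgroup `N` of `G` is
obtained from the trivial subgroup by finitely many steps `M ≤ N` of two kinds: `N / M` is normal in
`G / M` and generated by finitely many pairwise commuting subgroups, each a homomorphic image of a
finite group `S` with `P S`; or `N / M` is abelian and every nontrivial linear character of `N / M`
has more than `r` conjugates under `G / M`.
-/

set_option autoImplicit false

open Pool.Agent.H541R3.ART Pool.Agent.X21.Sy Pool.Agent.X21.Ce Equiv

/-- (1) If all irreducible characters of `G` are orthogonal, then the orders at `1 / 2` of the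
L-functions of a Galois extension with group `G` are twice the orders of functions with the formal
properties of Artin L-functions, and conversely the double of every such system of orders belongs to
functions with the formal properties at the central point.
(2) All irreducible characters of the symmetric groups are orthogonal.
(3) Let `E/K` be a Galois extension with group `S_n`, `n ≥ 14`, such that the order `r` of `ζ_E` at
`1 / 2` is less than `2 (n - 1)`, and less than `2 (n - 2)` if `n` is prime. Then `r` is even, all
L-functions are holomorphic at `1 / 2` with even order, and they are not zero except possibly for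
the trivial character and the sign character.
(4) In prime degree `p ≥ 5` the bound cannot be improved by the formal properties.
(5) Let `G` be any finite group, `H` a subgroup of `G` all of whose irreducible characters are
orthogonal and `N ≤ H` a normal subgroup of `G` which is built, as a normal subgroup of `H`, from
such alternating groups and from the groups `FacO` relative to `r / 2`. Then `r` is even, `L χ` has
order `0` at `1 / 2` for all irreducible `χ` which are not trivial on `N`, and no `L χ` has a pole
if the irreducible characters of `G / N` are monomial. -/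
theorem Pool.Agent.Results.MP_3b6604_nt.CentralSymmetric.result :
    (∀ (G : Type) [Group G] [Finite G], TotOrth G →
      (∀ A : CentralData G, ∃ B : ArtinData G (1 / 2 : ℂ),
        (∀ χ ∈ Irr G, meromorphicOrderAt (A.L χ) (1 / 2)
          = meromorphicOrderAt (B.L χ) (1 / 2) + meromorphicOrderAt (B.L χ) (1 / 2)) ∧
        ∀ (H : Subgroup G) (ψ : H →* ℂˣ), meromorphicOrderAt (A.Lin H ψ) (1 / 2)
          = meromorphicOrderAt (B.Lin H ψ) (1 / 2) + meromorphicOrderAt (B.Lin H ψ) (1 / 2)) ∧
      (∀ B : ArtinData G (1 / 2 : ℂ), ∃ A : CentralData G,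
        (∀ χ ∈ Irr G, meromorphicOrderAt (A.L χ) (1 / 2)
          = meromorphicOrderAt (B.L χ) (1 / 2) + meromorphicOrderAt (B.L χ) (1 / 2)) ∧
        ∀ (H : Subgroup G) (ψ : H →* ℂˣ), meromorphicOrderAt (A.Lin H ψ) (1 / 2)
          = meromorphicOrderAt (B.Lin H ψ) (1 / 2) + meromorphicOrderAt (B.Lin H ψ) (1 / 2))) ∧
    (∀ n : ℕ, TotOrth (Perm (Fin n))) ∧
    (∀ n : ℕ, 14 ≤ n → ∀ (A : CentralData (Perm (Fin n))) (r : ℕ),
      meromorphicOrderAt (A.Lin ⊥ 1) (1 / 2) = (r : WithTop ℤ) →
      r < 2 * (n - 1) → (n.Prime → r < 2 * (n - 2)) →
      Even r ∧ ∀ χ ∈ Irr (Perm (Fin n)), ∃ k : ℕ,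
        meromorphicOrderAt (A.L χ) (1 / 2) = ((2 * k : ℕ) : WithTop ℤ) ∧
        ((∃ g ∈ alternatingGroup (Fin n), χ g ≠ χ 1) → k = 0)) ∧
    (∀ p : ℕ, p.Prime → 5 ≤ p → ∃ A : CentralData (Perm (Fin p)),
      meromorphicOrderAt (A.Lin ⊥ 1) (1 / 2) = ((2 * (p - 2) : ℕ) : WithTop ℤ) ∧
      ∃ χ ∈ Irr (Perm (Fin p)), meromorphicOrderAt (A.L χ) (1 / 2) < 0) ∧
    (∀ (G : Type) [Group G] [Finite G] (A : CentralData G) (r : ℕ),
      meromorphicOrderAt (A.Lin ⊥ 1) (1 / 2) = (r : WithTop ℤ) →
      ∀ H : Subgroup G, TotOrth H → ∀ (N : Subgroup G) [N.Normal], N ≤ H →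
      Pool.Agent.TH820.BuiltC (r / 2) (fun S [Group S] => AltOr (r / 2) S) (N.subgroupOf H) →
      Even r ∧ (∀ χ ∈ Irr G, (∃ n ∈ N, χ n ≠ χ 1) → meromorphicOrderAt (A.L χ) (1 / 2) = 0) ∧
      ((∀ χ ∈ Irr G, (∀ n ∈ N, χ n = χ 1) → IsMonomialChar χ) →
        ∀ χ ∈ Irr G, 0 ≤ meromorphicOrderAt (A.L χ) (1 / 2))) :=
  ⟨fun G _ _ hG => ⟨fun A => double A hG, fun B => square B⟩, totOrth_fin,
    fun n hn A r hr h1 h2 => central_sym hn A hr h1 h2,
    fun p hp h5 => central_barrier hp h5,
    fun G _ _ A r hr H hH N _ hNH hN => central_built A hr H hH N hNH hN⟩
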