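import Pool.Agent.X287.CR9

/-!
# Central zeros of Artin L-functions, class functions of the Galois group and square roots of Frobenius elements

Let `F/ℚ` be a finite Galois extension with group `G`, `χ_j`, `j ∈ J`, the irreducible characters of `G`, with the
Frobenius-Schur indicators `ν_j ∈ {1, 0, -1}`. For a prime `p` let `I_p` be an inertia group and `φ_p` a Frobenius element (in
the same decomposition group); for a class function `f` of `G` let `f(Frob_p^k)` be the mean value of `f` over the coset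
`φ_p^k I_p`, so that for the character of a representation `V` this is the trace of `Frob_p^k` on `V^{I_p}`, and
`L(s, χ) = ∏_p ∏_i (1 - α_{p,i} p^{-s})⁻¹`, `Re s > 1`, with `∑_i α_{p,i}^k = χ(Frob_p^k)`, `|α_{p,i}| ≤ 1`. The meromorphic
continuation (Brauer) enters as a function which is equal to the product for `Re s > 1` and meromorphic at the points with
`Re s ≥ 1/2`. No hypothesis on zeros is made. For a class function `f`, a point `s₀`, `Re s₀ ≥ 1/2`, and a fixed `γ > π/2` let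

`S_f(s₀; T) = - ∑_p ∑_{k ≥ 1} f(Frob_p^k) p^{-k s₀} exp(iγ k log p / T) / (k Γ(1 + k log p / T))`,  `T > 0`,

an absolutely convergent sum. Let `m_j ∈ ℤ` be the order of `L(s, χ_j)` at `s₀`, and `exp(r_j)` its leading coefficient. Then:

1. `S_f(s₀; T) = ∑_j ⟨f, χ_j⟩ (m_j (log T - Λ(γ)) - r_j) + O(1/T)` for ALL class functions `f`.
2. SQUARE ROOTS. For `f(g) = #{h ∈ G : h² = g}` one has
   `Re S_f(s₀; T) / log T → ∑_{χ_j orthogonal} m_j - ∑_{χ_j symplectic} m_j`.
3. Statement (ii) of the problem. Let `J'` be the set of the nontrivial orthogonal and unitary characters, let the `L(s, χ_j)`,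
   `j ∈ J'`, be holomorphic at `1/2`, and let `f = ∑_{j ∈ J'} χ_j`. Then `L(1/2, χ_j) ≠ 0` for ALL `j ∈ J'` if and only if
   `Re S_f(1/2; T)` is bounded from above as `T → ∞`.
4. Statement (iii) of the problem. For a symplectic `χ_j` with root number `W = ±1` one has `ord_{s=1/2} L(s, χ_j) = (1 - W)/2` if
   and only if `Re S_{χ_j}(1/2; T) / log T → (1 - W)/2`.
5. If (ii) and (iii) hold for `F` (and `ζ(1/2) ≠ 0`, which is known), then for `f(g) = #{h : h² = g}`
   `Re S_f(1/2; T) / log T → - #{symplectic χ_j with root number -1}`: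
   the number of symplectic characters with root number `-1` is read off from the numbers of square roots of the
   Frobenius elements.

The (known) facts on irreducible characters which are used are: every class function is the sum of the
`⟨f, χ_j⟩ χ_j`, and the values of the indicators. Proof: the rotated law for series with complex coefficients
(`Pool.Agent.X287.CR`), and the formula `#{h : h² = g} = ∑_j ν_j χ_j(g)` of Frobenius and Schur, which is derived here.
-/

set_option autoImplicit false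

open Filter Topology Asymptotics

namespace Pool.Agent.Results.MP_3b6604_nt.SquareRootsOfFrobenius

variable {G : Type} [Group G] [Fintype G]

/-- `f` is a class function. -/
def IsClassFunction (f : G → ℂ) : Prop := ∀ g h : G, f (h * g * h⁻¹) = f g

/-- The scalar product `⟨f, χ⟩ = |G|⁻¹ ∑_x f(x) χ(x)^*`. -/
noncomputable def inner (f χ : G → ℂ) : ℂ :=
  (Fintype.card G : ℂ)⁻¹ * ∑ x, f x * (starRingEnd ℂ) (χ x)

/-- The `χ_j` with the indicators `ν_j` have the properties of the irreducible characters of `G` which are used. -/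
structure IsCharacterTable {J : Type} [Fintype J] (χ : J → G → ℂ) (ν : J → ℤ) : Prop where
  expand : ∀ f : G → ℂ, IsClassFunction f → ∀ g, f g = ∑ j, inner f (χ j) * χ j g
  indicator : ∀ j, (Fintype.card G : ℂ)⁻¹ * ∑ g, χ j (g ^ 2) = ν j
  values : ∀ j, ν j = 1 ∨ ν j = 0 ∨ ν j = -1

/-- `f(Frob_p^k)`: the mean value of `f` over the coset `φ_p^k I_p`. -/
noncomputable def frob (I : Nat.Primes → Subgroup G) (φ : Nat.Primes → G) (f : G → ℂ) (p : Nat.Primes)
    (k : ℕ) : ℂ := by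
  classical
  exact (Fintype.card (I p) : ℂ)⁻¹ * ∑ h : I p, f (φ p ^ k * h)

/-- The eigenvalues of the Frobenius elements for the character `χ`. -/
structure IsLocalData (I : Nat.Primes → Subgroup G) (φ : Nat.Primes → G) (χ : G → ℂ) {d : ℕ}
    (α : Nat.Primes → Fin d → ℂ) : Prop where
  trace : ∀ p k, ∑ i, α p i ^ (k + 1) = frob I φ χ p (k + 1)
  le : ∀ p i, ‖α p i‖ ≤ 1

/-- `L` is the Artin L-function for `Re s > 1`, continued to a function which is meromorphic at the points with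
`Re s ≥ 1/2`. -/
structure IsContinuation {d : ℕ} (α : Nat.Primes → Fin d → ℂ) (L : ℂ → ℂ) : Prop where
  prod : ∀ s : ℂ, 1 < s.re →
    HasProd (fun p : Nat.Primes => ∏ i, (1 - α p i * ((p : ℕ) : ℂ) ^ (-s))⁻¹) (L s)
  mero : ∀ s : ℂ, 1 / 2 ≤ s.re → MeromorphicAt L s

/-- The term of `S_f(s₀; T)` for the prime `p = x.1` and the exponent `k = x.2 + 1`. -/
noncomputable def term (I : Nat.Primes → Subgroup G) (φ : Nat.Primes → G) (f : G → ℂ) (s₀ : ℂ) (γ T : ℝ)
    (x : Nat.Primes × ℕ) : ℂ :=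
  -frob I φ f x.1 (x.2 + 1) * (((x.1 : ℕ) : ℂ) ^ (-s₀)) ^ (x.2 + 1) *
      Complex.exp ((γ * ((x.2 + 1) * Real.log (x.1 : ℕ) / T) : ℝ) * Complex.I) /
    (((x.2 + 1) * Real.Gamma (1 + (x.2 + 1) * Real.log (x.1 : ℕ) / T) : ℝ) : ℂ)

/-- The sum `S_f(s₀; T)`. -/
noncomputable def S (I : Nat.Primes → Subgroup G) (φ : Nat.Primes → G) (f : G → ℂ) (s₀ : ℂ) (γ T : ℝ) :
    ℂ := ∑' x, term I φ f s₀ γ T x

/-- The constant `Λ(γ) = ∫_0^∞ (e^{-t} - e^{iγt} / Γ(1 + t)) dt / t`. -/
noncomputable def Lambda (γ : ℝ) : ℂ := ∫ t in Set.Ioi (0 : ℝ),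
  (Complex.exp (-(t : ℂ)) - Complex.exp ((γ * t : ℝ) * Complex.I) * ((Real.Gamma (1 + t))⁻¹ : ℝ)) / t

/-- The number of square roots of `g`. -/
noncomputable def squareRoots (g : G) : ℂ := by
  classical
  exact ((Finset.univ.filter fun h : G => h ^ 2 = g).card : ℂ)

theorem squareRoots_class : IsClassFunction (squareRoots (G := G)) := by
  classical
  intro g h
  unfold squareRoots
  congr 1
  refine Finset.card_bij (fun x _ => h⁻¹ * x * h) ?_ ?_ ?_
  · intro x hx
    rw [Finset.mem_filter] at hx ⊢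
    refine ⟨Finset.mem_univ _, ?_⟩
    have h1 : (h⁻¹ * x * h) ^ 2 = h⁻¹ * x ^ 2 * h := by rw [pow_two, pow_two]; group
    rw [h1, hx.2]
    group
  · intro x _ y _ hxy
    have : x = y := by
      have h1 : h * (h⁻¹ * x * h) * h⁻¹ = h * (h⁻¹ * y * h) * h⁻¹ := by rw [hxy]
      simpa [mul_assoc] using h1
    exact this
  · intro y hy
    rw [Finset.mem_filter] at hy
    refine ⟨h * y * h⁻¹, ?_, by group⟩
    rw [Finset.mem_filter]
    refine ⟨Finset.mem_univ _, ?_⟩
    have h1 : (h * y * h⁻¹) ^ 2 = h * y ^ 2 * h⁻¹ := by rw [pow_two, pow_two]; group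
    rw [h1, hy.2]

/-- the formula of Frobenius and Schur -/
theorem squareRoots_eq {J : Type} [Fintype J] {χ : J → G → ℂ} {ν : J → ℤ} (h : IsCharacterTable χ ν)
    (g : G) : squareRoots g = ∑ j, ((ν j : ℝ) : ℂ) * χ j g := by
  classical
  rw [h.expand _ squareRoots_class g]
  refine Finset.sum_congr rfl fun j _ => ?_
  congr 1
  have h1 : ∑ x : G, squareRoots x * (starRingEnd ℂ) (χ j x) = ∑ y : G, (starRingEnd ℂ) (χ j (y ^ 2)) := by
    have h2 : ∀ x : G, squareRoots x * (starRingEnd ℂ) (χ j x) =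
        ∑ y : G, if y ^ 2 = x then (starRingEnd ℂ) (χ j (y ^ 2)) else 0 := by
      intro x
      unfold squareRoots
      rw [← Finset.sum_filter, Finset.sum_congr rfl (g := fun _ => (starRingEnd ℂ) (χ j x))
        (fun y hy => by rw [(Finset.mem_filter.1 hy).2])]
      rw [Finset.sum_const, nsmul_eq_mul]
    simp only [h2]
    rw [Finset.sum_comm]
    refine Finset.sum_congr rfl fun y _ => ?_
    rw [Finset.sum_ite_eq]
    simp
  unfold inner
  rw [h1, ← map_sum]
  have h3 := congrArg (starRingEnd ℂ) (h.indicator j)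
  rw [map_mul, map_inv₀, map_natCast, map_intCast] at h3
  rw [h3]
  push_cast
  rfl

open Pool.Agent.X287.CR in
theorem tf_eq (I : Nat.Primes → Subgroup G) (φ : Nat.Primes → G) (f : G → ℂ) (s₀ : ℂ) (γ T : ℝ)
    (x : Nat.Primes × ℕ) : tf I φ f s₀ γ T x = term I φ f s₀ γ T x := by
  unfold tf term lam
  have e2 : Complex.exp (-(s₀ * (((x.2 + 1) * Real.log (pq x.1) : ℝ) : ℂ))) =
      (((x.1 : ℕ) : ℂ) ^ (-s₀)) ^ (x.2 + 1) := by
    have := on_sys.cpow_eq s₀ x.1
    have e : ((x.1 : ℕ) : ℂ) ^ (-s₀) = (pq x.1 : ℂ) ^ (-s₀) := rfl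
    rw [e, this, ← Complex.exp_nat_mul]
    congr 1
    push_cast
    ring
  rw [e2]
  rfl

open Pool.Agent.X287.CR in
/-- **Central zeros of Artin L-functions, class functions, and square roots of Frobenius elements.** -/
theorem result (G : Type) [Group G] [Fintype G] (J : Type) [Fintype J] [DecidableEq J]
    (χ : J → G → ℂ) (ν : J → ℤ) (hχ : IsCharacterTable χ ν) (I : Nat.Primes → Subgroup G)
    (φ : Nat.Primes → G) (d : J → ℕ) (α : ∀ j, Nat.Primes → Fin (d j) → ℂ)
    (hα : ∀ j, IsLocalData I φ (χ j) (α j)) (L : J → ℂ → ℂ) (hL : ∀ j, IsContinuation (α j) (L j))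
    (γ : ℝ) (hγ : Real.pi / 2 < γ) :
    -- 1. all class functions
    (∀ s₀ : ℂ, 1 / 2 ≤ s₀.re → ∃ (m : J → ℤ) (r : J → ℂ),
      (∀ j, meromorphicOrderAt (L j) s₀ = m j ∧
        meromorphicTrailingCoeffAt (L j) s₀ = Complex.exp (r j)) ∧
      (∀ f : G → ℂ, IsClassFunction f → (∀ T : ℝ, 0 < T → Summable fun x => ‖term I φ f s₀ γ T x‖) ∧
        (fun T : ℝ => S I φ f s₀ γ T - ∑ j, inner f (χ j) * (m j * (Real.log T - Lambda γ) - r j))
          =O[atTop] (fun T : ℝ => 1 / T)) ∧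
      -- 2. square roots
      Tendsto (fun T : ℝ => (S I φ squareRoots s₀ γ T).re / Real.log T) atTop
        (𝓝 ((∑ j ∈ Finset.univ.filter (fun j => ν j = 1), (m j : ℝ)) -
          ∑ j ∈ Finset.univ.filter (fun j => ν j = -1), (m j : ℝ)))) ∧
    -- 3. nontrivial orthogonal and unitary characters
    (∀ j₀ : J, (∀ j, j ≠ j₀ → ν j ≠ -1 → AnalyticAt ℂ (L j) (1 / 2)) →
      ((∀ j, j ≠ j₀ → ν j ≠ -1 → L j (1 / 2) ≠ 0) ↔ ∃ C : ℝ, ∀ᶠ T : ℝ in atTop,
        (S I φ (fun g => ∑ j ∈ Finset.univ.filter (fun j => j ≠ j₀ ∧ ν j ≠ -1), χ j g) (1 / 2) γ T).re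
          ≤ C)) ∧
    -- 4. symplectic characters
    (∀ j, ∀ W : ℤ, (W = 1 ∨ W = -1) →
      (meromorphicOrderAt (L j) (1 / 2) = (((1 - W) / 2 : ℤ) : WithTop ℤ) ↔
        Tendsto (fun T : ℝ => (S I φ (χ j) (1 / 2) γ T).re / Real.log T) atTop
          (𝓝 (((1 - W) / 2 : ℤ) : ℝ)))) ∧
    -- 5. the number of symplectic characters with root number `-1`
    (∀ W : J → ℤ, (∀ j, W j = 1 ∨ W j = -1) →
      (∀ j, ν j ≠ -1 → meromorphicOrderAt (L j) (1 / 2) = 0) →
      (∀ j, ν j = -1 → meromorphicOrderAt (L j) (1 / 2) = (((1 - W j) / 2 : ℤ) : WithTop ℤ)) →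
      Tendsto (fun T : ℝ => (S I φ squareRoots (1 / 2) γ T).re / Real.log T) atTop
        (𝓝 (-((Finset.univ.filter (fun j => ν j = -1 ∧ W j = -1)).card : ℝ)))) := by
  classical
  have hA : ∀ j, Artin I φ (χ j) (α j) := fun j => ⟨(hα j).trace, (hα j).le⟩
  have hSf : ∀ f s₀ T, Sf I φ f s₀ γ T = S I φ f s₀ γ T := fun f s₀ T =>
    tsum_congr fun x => tf_eq I φ f s₀ γ T x
  have hlaw : ∀ j (s₀ : ℂ), 1 / 2 ≤ s₀.re → ∃ (m : ℤ) (r₀ : ℂ), (meromorphicOrderAt (L j) s₀ = m ∧
      meromorphicTrailingCoeffAt (L j) s₀ = Complex.exp r₀) ∧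
      Asy (Lambda γ) (S I φ (χ j) s₀ γ) m r₀ := by
    intro j s₀ hs₀
    obtain ⟨m, r₀, h1, h2, h3⟩ := (hA j).law (L := L j) (hL j).prod (s₀ := s₀) (by linarith)
      (fun x h0 _ => (hL j).mero _ (by rw [Complex.add_re, Complex.ofReal_re]; linarith)) hγ
    refine ⟨m, r₀, ⟨h1, h2⟩, ?_⟩
    have e : Sf I φ (χ j) s₀ γ = S I φ (χ j) s₀ γ := funext fun T => hSf _ _ _
    rw [e] at h3
    exact h3
  have hcombS : ∀ (a : J → ℂ) (s₀ : ℂ), 1 / 2 ≤ s₀.re → ∀ T : ℝ, 0 < T →
      S I φ (fun g => ∑ j, a j * χ j g) s₀ γ T = ∑ j, a j * S I φ (χ j) s₀ γ T := by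
    intro a s₀ hs₀ T hT
    have := Sf_sum hA a (s₀ := s₀) (by linarith) γ hT
    simpa only [hSf] using this
  -- real combinations
  have hre : ∀ (a : J → ℝ) (s₀ : ℂ), 1 / 2 ≤ s₀.re → ∀ (m : J → ℤ) (r : J → ℂ),
      (∀ j, Asy (Lambda γ) (S I φ (χ j) s₀ γ) (m j) (r j)) → ∃ R : ℝ,
      Tendsto (fun T : ℝ => (S I φ (fun g => ∑ j, (a j : ℂ) * χ j g) s₀ γ T).re -
        (∑ j, a j * m j) * Real.log T) atTop (𝓝 R) := by
    intro a s₀ hs₀ m r h
    obtain ⟨R, hR⟩ := comb_re h a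
    refine ⟨R, hR.congr' ?_⟩
    filter_upwards [eventually_gt_atTop 0] with T hT
    rw [hcombS (fun j => (a j : ℂ)) s₀ hs₀ T hT]
  have hsq : (squareRoots : G → ℂ) = fun g => ∑ j, ((ν j : ℝ) : ℂ) * χ j g :=
    funext fun g => squareRoots_eq hχ g
  have hνsum : ∀ m : J → ℤ, ∑ j, (ν j : ℝ) * m j =
      (∑ j ∈ Finset.univ.filter (fun j => ν j = 1), (m j : ℝ)) -
        ∑ j ∈ Finset.univ.filter (fun j => ν j = -1), (m j : ℝ) := by
    intro m
    rw [Finset.sum_filter, Finset.sum_filter, ← Finset.sum_sub_distrib]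
    refine Finset.sum_congr rfl fun j _ => ?_
    rcases hχ.values j with h | h | h <;> simp [h]
  have hhalf : (1 : ℝ) / 2 ≤ ((1 / 2 : ℂ)).re := by norm_num
  refine ⟨fun s₀ hs₀ => ?_, fun j₀ hj₀ => ?_, fun j W hW => ?_, fun W hW h1 h2 => ?_⟩
  · choose m r hmr hasy using fun j => hlaw j s₀ hs₀
    refine ⟨m, r, hmr, fun f hf => ?_, ?_⟩
    · have hfe : f = fun g => ∑ j, inner f (χ j) * χ j g := funext fun g => hχ.expand f hf g
      constructor
      · intro T hT
        have h1 := tf_sum_summable hA (fun j => inner f (χ j)) (s₀ := s₀) (by linarith) γ hT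
        rw [← hfe] at h1
        simpa only [tf_eq] using h1
      · have h1 := comb hasy (fun j => inner f (χ j))
        refine h1.congr' ?_ EventuallyEq.rfl
        filter_upwards [eventually_gt_atTop 0] with T hT
        have h2 := hcombS (fun j => inner f (χ j)) s₀ hs₀ T hT
        rw [← hfe] at h2
        rw [h2]
    · obtain ⟨R, hR⟩ := hre (fun j => (ν j : ℝ)) s₀ hs₀ m r hasy
      rw [← hsq] at hR
      have h1 := (lin_log hR).1
      rwa [hνsum m] at h1
  · choose m r hmr hasy using fun j => hlaw j (1 / 2) hhalf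
    set a : J → ℝ := fun j => if j ≠ j₀ ∧ ν j ≠ -1 then 1 else 0 with ha
    obtain ⟨R, hR⟩ := hre a (1 / 2) hhalf m r hasy
    have e1 : (fun g => ∑ j, (a j : ℂ) * χ j g) =
        fun g => ∑ j ∈ Finset.univ.filter (fun j => j ≠ j₀ ∧ ν j ≠ -1), χ j g := by
      funext g
      rw [Finset.sum_filter]
      refine Finset.sum_congr rfl fun j _ => ?_
      rw [ha]
      by_cases h : j ≠ j₀ ∧ ν j ≠ -1 <;> simp [h]
    rw [e1] at hR
    rw [(lin_log hR).2.1]
    have e2 : ∑ j, a j * m j = ((∑ j ∈ Finset.univ.filter (fun j => j ≠ j₀ ∧ ν j ≠ -1), m j : ℤ) : ℝ) := by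
      rw [Finset.sum_filter]
      push_cast
      refine Finset.sum_congr rfl fun j _ => ?_
      rw [ha]
      by_cases h : j ≠ j₀ ∧ ν j ≠ -1 <;> simp [h]
    have hval : ∀ j, j ≠ j₀ → ν j ≠ -1 → 0 ≤ m j ∧ (L j (1 / 2) ≠ 0 ↔ m j = 0) := by
      intro j h1 h2
      obtain ⟨h3, h4, h5⟩ := value (hj₀ j h1 h2) (hmr j).1 (hmr j).2
      refine ⟨h3, ?_, ?_⟩
      · intro h6
        by_contra h7
        exact h6 (h5 h7)
      · intro h6
        rw [h4 h6]
        exact Complex.exp_ne_zero _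
    rw [e2]
    have e3 : (((∑ j ∈ Finset.univ.filter (fun j => j ≠ j₀ ∧ ν j ≠ -1), m j : ℤ) : ℝ) ≤ 0) ↔
        ∑ j ∈ Finset.univ.filter (fun j => j ≠ j₀ ∧ ν j ≠ -1), m j ≤ 0 := by exact_mod_cast Iff.rfl
    rw [e3]
    have hnn : ∀ j ∈ Finset.univ.filter (fun j => j ≠ j₀ ∧ ν j ≠ -1), 0 ≤ m j := fun j hj =>
      (hval j (Finset.mem_filter.1 hj).2.1 (Finset.mem_filter.1 hj).2.2).1
    constructor
    · intro h
      refine (Finset.sum_eq_zero fun j hj => ?_).le
      have hj' := (Finset.mem_filter.1 hj).2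
      exact (hval j hj'.1 hj'.2).2.1 (h j hj'.1 hj'.2)
    · intro h j h1 h2
      have h3 := le_antisymm h (Finset.sum_nonneg hnn)
      rw [Finset.sum_eq_zero_iff_of_nonneg hnn] at h3
      exact (hval j h1 h2).2.2 (h3 j (Finset.mem_filter.2 ⟨Finset.mem_univ _, h1, h2⟩))
  · obtain ⟨m, r, ⟨h1, h2⟩, h3⟩ := hlaw j (1 / 2) hhalf
    rw [h1, ← h3.order_iff ((1 - W) / 2)]
    exact_mod_cast Iff.rfl
  · choose m r hmr hasy using fun j => hlaw j (1 / 2) hhalf
    obtain ⟨R, hR⟩ := hre (fun j => (ν j : ℝ)) (1 / 2) hhalf m r hasy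
    rw [← hsq] at hR
    have h3 := (lin_log hR).1
    have hm0 : ∀ j, ν j ≠ -1 → m j = 0 := by
      intro j hj
      have := (hmr j).1.symm.trans (h1 j hj)
      exact_mod_cast this
    have hm1 : ∀ j, ν j = -1 → m j = (1 - W j) / 2 := by
      intro j hj
      have := (hmr j).1.symm.trans (h2 j hj)
      exact_mod_cast this
    have e : ∑ j, (ν j : ℝ) * m j = -((Finset.univ.filter (fun j => ν j = -1 ∧ W j = -1)).card : ℝ) := by
      rw [Finset.card_filter]
      push_cast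
      rw [← Finset.sum_neg_distrib]
      refine Finset.sum_congr rfl fun j _ => ?_
      by_cases hj : ν j = -1
      · rw [hm1 j hj, hj]
        rcases hW j with h | h <;> simp [h]
      · rw [hm0 j hj]
        simp [hj]
    rwa [e] at h3

end Pool.Agent.Results.MP_3b6604_nt.SquareRootsOfFrobenius
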